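import Pool.Agent.Helper57.THA.St
import Pool.Agent.Helper79.THA.LBR
import Pool.Agent.Helper69.WLK.Alg

/-! [HAT] of THEOREM A for corners: the frame of the next coordinate in the changed lower box coordinates. -/

set_option autoImplicit false
set_option linter.unusedSectionVars false

namespace Pool.Agent.Helper69.HAT

open Finset Pool.Agent.Helper69.RK Pool.Agent.Helper31.EC Pool.Agent.Helper31.EC.Sp
open Pool.Agent.Helper31.EC.QS Pool.Agent.Helper57.TA Pool.Agent.Helper13.AM Pool.Agent.Helper57.THA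
open Pool.Agent.Helper14.WLK

noncomputable section

variable {S : Sp} {d N r : ℕ} {c : CD S d N r} {w : Fin N → ℝ} {z : Fin N} {ρ : ℝ} {H : HH S d N} {s : ℝ}

theorem eval_h0 {A : Type*} [CommRing A] {β κ : Type*} (P : MvPolynomial (β ⊕ κ) A) (x : β → A) :
    MvPolynomial.eval x (h0 P) = MvPolynomial.eval (Sum.elim x fun _ => 0) P := by
  unfold h0
  rw [eval_sbs]
  congr 1
  congr 1
  funext a
  rcases a with a | a
  · rw [Sum.elim_inl, Sum.elim_inl, MvPolynomial.eval_X]
  · rw [Sum.elim_inr, Sum.elim_inr, map_zero]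

theorem q0_LG (hb : c.Bx w z) (H : HH S d N) (s : ℝ) (a : Fin (d + 1)) : c.q0 s a ∈ LG (gH c H s) := by
  intro W P P' _ h
  exact (hb.fr s W P P' fun x => h (Sum.inl x)).1 a

theorem F_LG (hb : c.Bx w z) (H : HH S d N) (s : ℝ) (j : Fin N) : c.F s j ∈ CS (LG (gH c H s)) := by
  intro m W P P' _ h
  have h1 := (hb.fr s W P P' fun x => h (Sum.inl x)).2 j
  have h2 := congrArg (fun Q => MvPolynomial.coeff m Q) h1
  beta_reduce at h2
  rwa [MvPolynomial.coeff_map, MvPolynomial.coeff_map] at h2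

theorem H_LG (c : CD S d N r) (H : HH S d N) (s : ℝ) (j : Fin N) : H j ∈ CS (LG (gH c H s)) := by
  intro m
  by_cases hm : m ∈ (H j).support
  · exact LF_mem (V := fun _ _ => ()) (f := gH c H s) (Sum.inr ⟨j, m, hm⟩)
  · rw [MvPolynomial.notMem_support_iff.mp hm]
    exact Subring.zero_mem _

theorem Ph_LG (hb : c.Bx w z) (H : HH S d N) (s : ℝ) (j : Fin N) : Ph c H s j ∈ CS (LG (gH c H s)) := by
  refine (CS _).sub_mem (F_LG hb H s j) (CS_aeval (H_LG c H s j) ?_)
  rintro (a | l)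
  · exact (CS _).add_mem (CS_C (q0_LG hb H s a)) (CS_X _ _)
  · exact (CS _).add_mem (F_LG hb H s l) (CS_X _ _)

theorem h0_CS {A : Type*} [CommRing A] {β κ : Type*} {R : Subring A} {P : MvPolynomial (β ⊕ κ) A} (hP : P ∈ CS R) :
    h0 P ∈ CS R := by
  refine CS_aeval hP ?_
  rintro (a | l)
  · exact CS_X _ _
  · exact (CS _).zero_mem

theorem rename_CS {A σ τ : Type*} [CommRing A] {R : Subring A} {P : MvPolynomial σ A} (hP : P ∈ CS R) (f : σ → τ) :
    MvPolynomial.rename f P ∈ CS R := by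
  have h1 : MvPolynomial.rename f P = MvPolynomial.aeval (fun a => MvPolynomial.X (f a)) P := by
    clear hP
    induction P using MvPolynomial.induction_on with
    | C a => rw [MvPolynomial.rename_C, MvPolynomial.aeval_C, MvPolynomial.algebraMap_eq]
    | add p q hp hq => rw [map_add, map_add, hp, hq]
    | mul_X p a hp => rw [map_mul, map_mul, hp, MvPolynomial.aeval_X, MvPolynomial.rename_X]
  rw [h1]
  exact CS_aeval hP fun i => CS_X R _

theorem F_Lw (hb : c.Bx w z) (w1 : ∀ j, 1 < w j) (s : ℝ) : Lw w (c.F s) := by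
  rw [Lw_iff]
  intro j n hn l hl
  refine lt_of_le_of_lt ?_ (hb.deg s j n hn)
  have h1 : ((n (Sum.inr l) : ℕ) : ℝ) * (Sum.elim (fun _ => 1) w : Fin (d + 1) ⊕ Fin N → ℝ) (Sum.inr l) ≤
      wgt (Sum.elim (fun _ => 1) w) n := by
    unfold wgt
    apply Finset.single_le_sum
      (f := fun a => ((n a : ℕ) : ℝ) * (Sum.elim (fun _ => 1) w : Fin (d + 1) ⊕ Fin N → ℝ) a) _ (Finset.mem_univ _)
    rintro (a | a) _
    · exact mul_nonneg (Nat.cast_nonneg _) zero_le_one
    · exact mul_nonneg (Nat.cast_nonneg _) (zero_lt_one.trans (w1 a)).le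
  refine le_trans ?_ h1
  rw [Sum.elim_inr]
  have h2 : (1 : ℝ) ≤ ((n (Sum.inr l) : ℕ) : ℝ) := by
    exact_mod_cast Nat.one_le_iff_ne_zero.mpr hl
  have h3 := zero_lt_one.trans (w1 l)
  nlinarith

/-- [HAT] -/
theorem st_HAT : ST_HAT := by
  classical
  intro S d N r c w z ρ hA H hH s j hs hs1
  have hF := F_Lw hA.bx hA.w1 s
  have hHl : Lw w H := Lw_iff.mpr hH.low
  obtain ⟨P, hP⟩ : ∃ P : Fin N → MvPolynomial (Fin (d + 1) ⊕ Fin N) (QS S),
      ∀ l, P l = Ph c H s l - MvPolynomial.rename Sum.inl (h0 (Ph c H s l)) := ⟨_, fun _ => rfl⟩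
  have hPL : ∀ l, P l ∈ CS (LG (gH c H s)) := by
    intro l
    rw [hP]
    exact (CS _).sub_mem (Ph_LG hA.bx H s l) (rename_CS (h0_CS (Ph_LG hA.bx H s l)) _)
  have hPhw : Lw w (Ph c H s) := by
    intro j l hl
    rcases vars_sub_mem hl with h1 | h1
    · exact hF j l h1
    · obtain ⟨a, ha, h2⟩ := vars_aeval_mem h1
      rcases a with a | k
      · rw [Sum.elim_inl] at h2
        rcases vars_add_mem h2 with h3 | h3
        · rw [MvPolynomial.vars_C] at h3
          exact absurd h3 (Finset.notMem_empty _)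
        · exact absurd (vars_X_mem h3) Sum.inr_ne_inl
      · rw [Sum.elim_inr] at h2
        have h4 := hHl j k ha
        rcases vars_add_mem h2 with h3 | h3
        · exact (hF k l h3).trans h4
        · rw [Sum.inr_injective (vars_X_mem h3)]
          exact h4
  have hPw : Lw w P := by
    intro j l hl
    rw [hP] at hl
    rcases vars_sub_mem hl with h1 | h1
    · exact hPhw j l h1
    · have h2 := MvPolynomial.vars_rename _ _ h1
      rw [Finset.mem_image] at h2
      obtain ⟨a, _, ha⟩ := h2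
      exact absurd ha Sum.inl_ne_inr
  obtain ⟨G, hG1, hG2, hG3⟩ := tri_solve w (LG (gH c H s)) P hPL hPw
  have hG4 := hG3 (dq c s) (c.γ s) (gh c H s) (by
    intro l
    rw [hP, map_sub, MvPolynomial.eval_rename]
    unfold gh
    have e1 : (Sum.elim (dq c s) (c.γ s)) ∘ Sum.inl = dq c s := rfl
    rw [e1, Pool.Agent.Helper79.THA.eval_Ph hA.bx hs hs1]
    ring)
  obtain ⟨f, hf⟩ : ∃ f : Fin (d + 1) ⊕ Low w j → Fin (d + 1) ⊕ Fin N, f = Sum.map id Subtype.val := ⟨_, rfl⟩
  have hfi : Function.Injective f := by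
    rw [hf]
    exact Sum.map_injective.mpr ⟨Function.injective_id, Subtype.val_injective⟩
  obtain ⟨Q, hQ⟩ : ∃ Q : MvPolynomial (Fin (d + 1) ⊕ Fin N) (QS S), Q =
      MvPolynomial.aeval (Sum.elim (fun a => MvPolynomial.X (Sum.inl a)) G) (c.F s j) := ⟨_, rfl⟩
  have hQL : Q ∈ CS (LG (gH c H s)) := by
    rw [hQ]
    refine CS_aeval (F_LG hA.bx H s j) ?_
    rintro (a | l)
    · exact CS_X _ _
    · exact hG1 l
  have hQv : ∀ l, Sum.inr l ∈ Q.vars → w l < w j := by
    intro l hl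
    rw [hQ] at hl
    obtain ⟨a, ha, h2⟩ := vars_aeval_mem hl
    rcases a with a | k
    · rw [Sum.elim_inl] at h2
      exact absurd (vars_X_mem h2) Sum.inr_ne_inl
    · rcases hG2 k l h2 with rfl | h3
      · exact hF j _ ha
      · exact h3.trans (hF j k ha)
  obtain ⟨Fh, hFh⟩ := MvPolynomial.exists_rename_eq_of_vars_subset_range Q f hfi (by
    intro i hi
    rcases i with a | l
    · exact ⟨Sum.inl a, by rw [hf]; rfl⟩
    · exact ⟨Sum.inr ⟨l, hQv l hi⟩, by rw [hf]; rfl⟩)
  refine ⟨Fh, ?_, ?_⟩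
  · intro m
    have h1 := hQL (m.mapDomain f)
    rwa [← hFh, MvPolynomial.coeff_rename_mapDomain _ hfi] at h1
  · have h1 : MvPolynomial.eval (Sum.elim (dq c s) (fun l : Low w j => gh c H s l.1)) Fh =
        MvPolynomial.eval (Sum.elim (dq c s) (gh c H s)) Q := by
      rw [← hFh, MvPolynomial.eval_rename]
      congr 1
      congr 1
      funext a
      rw [hf]
      rcases a with a | l
      · rfl
      · rfl
    rw [h1, hQ, eval_sbs]
    have h2 : (fun a => MvPolynomial.eval (Sum.elim (dq c s) (gh c H s))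
        ((Sum.elim (fun a => MvPolynomial.X (Sum.inl a)) G :
          Fin (d + 1) ⊕ Fin N → MvPolynomial (Fin (d + 1) ⊕ Fin N) (QS S)) a)) = Sum.elim (dq c s) (c.γ s) := by
      funext a
      rcases a with a | l
      · rw [Sum.elim_inl, MvPolynomial.eval_X, Sum.elim_inl, Sum.elim_inl]
      · rw [Sum.elim_inr, Sum.elim_inr]
        exact (hG4 l).symm
    rw [h2]
    exact hA.bx.fR s hs hs1 j

end

end Pool.Agent.Helper69.HAT
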